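import Pool.Agent.Q271.CosetMain

set_option autoImplicit false

namespace Pool.Agent.Results.MP_39ae23_nt.ZeroOneFails

open Q271.Coset MeasureTheory

/-- The zero-one law fails for algebraic measures on cosets: already for `m = 2`, `n = 1` there is
a one-dimensional algebraic measure giving measure `1/2` to the set of badly approximable
targets. -/
theorem result : ∃ (A : Matrix (Fin 2) (Fin 1) ℝ) (μ : Measure (Fin 2 → UnitAddCircle)),
    IsProbabilityMeasure μ ∧ IsAlgebraic 1 μ ∧ μ (Bad A) = 1 / 2 := by
  obtain ⟨A, -, μ, h⟩ := summary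
  exact ⟨A, μ, h⟩

end Pool.Agent.Results.MP_39ae23_nt.ZeroOneFails
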